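import Mathlib
import Pool.Agent.TH109.M.Defs

set_option autoImplicit false

open scoped Classical

namespace Pool.Agent.TH109.Q

open Pool.Agent.Helper943.LM (UA wpow)
open Pool.Agent.TH109.M

noncomputable section

variable {G : Type} [Group G]

/-- branching can be reached from `s` -/
def Big (U : UA G) (s : U.S) : Prop :=
  ∃ s' : U.S, Cn U s s' ∧ U.live s' ∧ ∃ X Y : List U.A,
    U.run s' X = s' ∧ U.run s' Y = s' ∧ X.length = Y.length ∧ X ≠ Y

/-- times of the normal form of `g` in a small cyclic class with translation `e` -/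
def TM (U : UA G) (ℓ : ℕ) (g e : G) : Set ℕ :=
  {t | t ≤ len U g ∧ ¬ Big U (st U (nf U g) t) ∧ Cy U (st U (nf U g) t) ∧ EV U ℓ (nf U g) t = e}

/-- first time of the stay -/
def Ta (U : UA G) (ℓ : ℕ) (g e : G) : ℕ := sInf (TM U ℓ g e)

/-- last time of the stay -/
def Tb (U : UA G) (ℓ : ℕ) (g e : G) : ℕ := sSup (TM U ℓ g e)

/-- number of loops in the stay -/
def mm (U : UA G) (ℓ : ℕ) (g e : G) : ℕ := (Tb U ℓ g e - Ta U ℓ g e) / ℓ

/-- symmetric generating set: letters and their inverses -/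
def Sy (U : UA G) : Set G := {x | (∃ a, U.mu a = x) ∨ ∃ a, (U.mu a)⁻¹ = x}

/-- balls -/
def Bl (U : UA G) (n : ℕ) : Set G :=
  {g | ∃ l : List G, l.length ≤ n ∧ (∀ x ∈ l, x ∈ Sy U) ∧ l.prod = g}

/-- basic facts about stays in small classes -/
structure LoopQ (U : UA G) (ℓ : ℕ) : Prop where
  pos : 0 < ℓ
  lp_run : ∀ s, U.live s → ¬ Big U s → Cy U s → U.run s (lp U ℓ s) = s
  lp_len : ∀ s, U.live s → ¬ Big U s → Cy U s → (lp U ℓ s).length = ℓ
  /-- small states only lead to small states -/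
  small_fwd : ∀ (w : List U.A) (t t' : ℕ), t ≤ t' → ¬ Big U (st U w t) → ¬ Big U (st U w t')
  /-- closed words of the same length at small live states are equal -/
  star : ∀ s, U.live s → ¬ Big U s → ∀ X Y : List U.A, U.run s X = s → U.run s Y = s →
    X.length = Y.length → X = Y
  /-- translations of closed words of the same length determine the class -/
  inj : ∀ w ∈ U.L, ∀ t t' : ℕ, t ≤ t' → ∀ Z Z' : List U.A, Z ≠ [] →
    U.run (st U w t) Z = st U w t → U.run (st U w t') Z' = st U w t' → Z.length = Z'.length →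
    pt U w t * U.ev Z * (pt U w t)⁻¹ = pt U w t' * U.ev Z' * (pt U w t')⁻¹ →
    Cn U (st U w t') (st U w t)
  /-- times in the class of a time of the stay belong to the stay -/
  tm_class : ∀ g e t x, t ∈ TM U ℓ g e → x ≤ len U g →
    Cn U (st U (nf U g) x) (st U (nf U g) t) → Cn U (st U (nf U g) t) (st U (nf U g) x) →
    x ∈ TM U ℓ g e
  /-- all times of the stay are in one class -/
  tm_cn : ∀ g e t t', t ∈ TM U ℓ g e → t' ∈ TM U ℓ g e → t ≤ t' →
    Cn U (st U (nf U g) t') (st U (nf U g) t)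
  /-- the times of the stay form an interval -/
  tm_int : ∀ g e, (TM U ℓ g e).Nonempty →
    ∀ t, t ∈ TM U ℓ g e ↔ (Ta U ℓ g e ≤ t ∧ t ≤ Tb U ℓ g e)
  /-- along the stay the normal form repeats the loop -/
  tm_loop : ∀ g e t, t ∈ TM U ℓ g e → t + ℓ ∈ TM U ℓ g e →
    st U (nf U g) (t + ℓ) = st U (nf U g) t ∧ pt U (nf U g) (t + ℓ) = e * pt U (nf U g) t

/-- Folner condition -/
def Fol (G : Type) [Group G] : Prop :=
  ∀ (Θ : Finset G) (n : ℕ), ∃ F : Finset G, F.Nonempty ∧
    n * (Finset.image₂ (· * ·) F Θ).card ≤ (n + 1) * F.card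

/-- common long stays with the values in `E` on the ball of radius `ρ` around `g0` -/
def Com (U : UA G) (ℓ ρ K : ℕ) (g0 : G) (E : Finset G) : Prop :=
  ∀ u ∈ Bl U ρ, ∀ e ∈ E, (TM U ℓ (g0 * u) e).Nonempty ∧
    Ta U ℓ (g0 * u) e + K ≤ Tb U ℓ (g0 * u) e

end

end Pool.Agent.TH109.Q
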