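import Mathlib
import Pool.Agent.TH109.Q.Defs
import Pool.Agent.TH790.J1966
import Pool.Agent.TH857.J1967
import Pool.Agent.TH298.J1971
import Pool.Agent.TH790.J1968
import Pool.Agent.TH790.J1969
import Pool.Agent.TH298.J1970

set_option autoImplicit false

open scoped Classical

namespace Pool.Agent.TH109.Q

open Pool.Agent.Helper943.LM (UA wpow)
open Pool.Agent.TH109.M

noncomputable section

variable {G : Type} [Group G]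

/-! Q1 -/
theorem star_of_small (U : UA G) (h : ¬ Big U U.s0) : Star U :=
  Pool.Agent.TH790.J1966.star_of_small U h
theorem loopQ (U : UA G) (ℓ : ℕ) (hℓ : 0 < ℓ)
    (hdiv : ∀ k, 1 ≤ k → k ≤ Nat.card U.S → k ∣ ℓ) : LoopQ U ℓ :=
  Pool.Agent.TH790.J1966.loopQ U ℓ hℓ hdiv
/-- at most `card S` values -/
theorem vals_card (U : UA G) (ℓ : ℕ) (hQ : LoopQ U ℓ) (g : G) (E : Finset G)
    (h : ∀ e ∈ E, (TM U ℓ g e).Nonempty) : E.card ≤ Nat.card U.S :=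
  Pool.Agent.TH790.J1966.vals_card U ℓ hQ g E h

/-! Q2 -/
theorem lip (U : UA G) : ∃ ℓ0 : ℕ, 0 < ℓ0 ∧ ∀ ℓ : ℕ, ℓ0 ∣ ℓ → LoopQ U ℓ →
    ∃ C : ℕ, ∀ g, ∀ x ∈ Sy U,
      len U (g * x) ≤ len U g + C ∧
      (∀ e, (TM U ℓ g e).Nonempty → (TM U ℓ (g * x) e).Nonempty →
        Ta U ℓ g e + C ≤ Tb U ℓ g e →
        Ta U ℓ (g * x) e ≤ Ta U ℓ g e + C ∧ Tb U ℓ g e ≤ Tb U ℓ (g * x) e + C) ∧
      (∀ e p q, p ∈ TM U ℓ g e → q ∈ TM U ℓ g e → p + 2 * C ≤ q →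
        ¬ Big U (st U (nf U (g * x)) p) →
        p + C ∈ TM U ℓ (g * x) e ∧ q - C ∈ TM U ℓ (g * x) e) :=
  Pool.Agent.TH857.J1967.lip U

/-! Q3 -/
theorem removal (U : UA G) (ℓ : ℕ) (hQ : LoopQ U ℓ) (g : G) (E : Finset G)
    (h : ∀ e ∈ E, (TM U ℓ g e).Nonempty) :
    ∃ l : List G, l.Nodup ∧ l.toFinset = E ∧ ∃ w ∈ U.L,
      g = (l.map (fun e => e ^ (mm U ℓ g e))).prod * U.ev w ∧
      w.length + ℓ * ∑ e ∈ E, mm U ℓ g e = len U g ∧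
      ∀ t ≤ len U g, Big U (st U (nf U g) t) → t ≤ w.length ∧ w.take t = (nf U g).take t :=
  Pool.Agent.TH790.J1968.removal U ℓ hQ g E h

/-! Q4 -/
theorem new_stay (U : UA G) (ℓ : ℕ) (hQ : LoopQ U ℓ) (g : G) (E : Finset G) (p q K : ℕ)
    (hp : ¬ Big U (st U (nf U g) p)) (hq : q ≤ len U g)
    (hc : Nat.card U.S * (K + 1) <
      ((Finset.Icc p q).filter (fun t => ∀ e ∈ E, t ∉ TM U ℓ g e)).card) :
    ∃ e, e ∉ E ∧ ∃ p' q', p ≤ p' ∧ p' + K ≤ q' ∧ q' ≤ q ∧ p' ∈ TM U ℓ g e ∧ q' ∈ TM U ℓ g e :=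
  Pool.Agent.TH790.J1969.new_stay U ℓ hQ g E p q K hp hq hc

/-! Q5 -/
theorem flow (U : UA G) : ∃ c : ℕ, ∀ j k : ℕ, ∃ Θ : Finset G, (Θ : Set G) ⊆ Bl U (c * (j + k + 1)) ∧
    ∀ (E : Finset G) (m : G → G → ℕ) (b : ℕ) (D : Finset G),
      (∀ g ∈ D, ∃ l : List G, l.Nodup ∧ l.toFinset = E ∧ ∃ u y : List U.A, u ++ y ∈ U.L ∧
        Big U (U.run U.s0 u) ∧ y.length ≤ k ∧
        g = (l.map (fun e => e ^ (m g e))).prod * U.ev (u ++ y)) →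
      (∀ g ∈ D, ∀ θ ∈ Θ, ∀ e ∈ E, m g e ≤ m (g * θ) e + b ∧ m (g * θ) e ≤ m g e + b) →
      2 ^ j * D.card ≤
        (E.card.factorial * (2 * b + 1) ^ E.card * c ^ (k + 1)) *
          (Finset.image₂ (· * ·) D Θ).card :=
  Pool.Agent.TH298.J1970.flow U

/-! Q6 -/
theorem fol_solvable (h : IsSolvable G) : Fol G := Pool.Agent.TH298.J1971.fol_solvable h

end

end Pool.Agent.TH109.Q
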