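import Mathlib
import Pool.Agent.TH109.Q.Base

set_option autoImplicit false

open scoped Classical

namespace Pool.Agent.TH109.Q

open Pool.Agent.Helper943.LM (UA wpow)
open Pool.Agent.TH109.M

noncomputable section

variable {G : Type} [Group G]

/-- the Lipschitz data -/
def LipC (U : UA G) (ℓ C : ℕ) : Prop :=
  ∀ g, ∀ x ∈ Sy U,
      len U (g * x) ≤ len U g + C ∧
      (∀ e, (TM U ℓ g e).Nonempty → (TM U ℓ (g * x) e).Nonempty →
        Ta U ℓ g e + C ≤ Tb U ℓ g e →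
        Ta U ℓ (g * x) e ≤ Ta U ℓ g e + C ∧ Tb U ℓ g e ≤ Tb U ℓ (g * x) e + C) ∧
      (∀ e p q, p ∈ TM U ℓ g e → q ∈ TM U ℓ g e → p + 2 * C ≤ q →
        ¬ Big U (st U (nf U (g * x)) p) →
        p + C ∈ TM U ℓ (g * x) e ∧ q - C ∈ TM U ℓ (g * x) e)

theorem Sy_inv (U : UA G) {x : G} (hx : x ∈ Sy U) : x⁻¹ ∈ Sy U := by
  rcases hx with ⟨a, rfl⟩ | ⟨a, rfl⟩
  · exact Or.inr ⟨a, rfl⟩
  · exact Or.inl ⟨a, by simp⟩

theorem Bl_mono' (U : UA G) {m n : ℕ} (h : m ≤ n) : Bl U m ⊆ Bl U n := by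
  rintro g ⟨l, h1, h2, h3⟩
  exact ⟨l, h1.trans h, h2, h3⟩

theorem Bl_mul (U : UA G) {m n : ℕ} {g h : G} (hg : g ∈ Bl U m) (hh : h ∈ Bl U n) :
    g * h ∈ Bl U (m + n) := by
  obtain ⟨l, h1, h2, h3⟩ := hg
  obtain ⟨l', h1', h2', h3'⟩ := hh
  refine ⟨l ++ l', by simp; omega, ?_, by simp [h3, h3']⟩
  intro x hx
  rcases List.mem_append.1 hx with hx | hx
  · exact h2 x hx
  · exact h2' x hx

theorem Bl_inv (U : UA G) {n : ℕ} {g : G} (hg : g ∈ Bl U n) : g⁻¹ ∈ Bl U n := by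
  obtain ⟨l, h1, h2, h3⟩ := hg
  refine ⟨(l.map (fun x => x⁻¹)).reverse, by simpa using h1, ?_, ?_⟩
  · intro x hx
    simp only [List.mem_reverse, List.mem_map] at hx
    obtain ⟨y, hy, rfl⟩ := hx
    exact Sy_inv U (h2 y hy)
  · rw [← List.prod_inv_reverse, h3]

theorem Bl_len (U : UA G) (g : G) : g ∈ Bl U (len U g) := by
  refine ⟨(nf U g).map U.mu, by simp [len], ?_, nf_ev U g⟩
  intro x hx
  obtain ⟨a, _, rfl⟩ := List.mem_map.1 hx
  exact Or.inl ⟨a, rfl⟩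

theorem Sy_fin (U : UA G) : (Sy U).Finite := by
  haveI := U.finA
  exact (Set.finite_range U.mu).union (Set.finite_range (fun a => (U.mu a)⁻¹))

theorem Bl_fin (U : UA G) (n : ℕ) : (Bl U n).Finite := by
  haveI : Finite (Sy U) := (Sy_fin U).to_subtype
  apply ((List.finite_length_le (Sy U) n).image (fun l => (l.map Subtype.val).prod)).subset
  rintro g ⟨l, h1, h2, h3⟩
  refine ⟨l.attach.map (fun x => ⟨x.1, h2 x.1 x.2⟩), ?_, ?_⟩
  · simpa using h1
  · simp only [List.map_map, Function.comp_def]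
    rw [List.attach_map_subtype_val] <;> exact h3

theorem Com_shift {U : UA G} {ℓ r n K : ℕ} {g0 f : G} {E : Finset G}
    (h : Com U ℓ (r + n) K g0 E) (hf : f ∈ Bl U r) : Com U ℓ n K (g0 * f) E := by
  intro u hu e he
  have := h (f * u) (Bl_mul U hf hu) e he
  rwa [← mul_assoc] at this

theorem Com_mono {U : UA G} {ℓ r n K K' : ℕ} {g0 : G} {E : Finset G} (hn : n ≤ r) (hK : K' ≤ K)
    (h : Com U ℓ r K g0 E) : Com U ℓ n K' g0 E := by
  intro u hu e he
  have := h u (Bl_mono' U hn hu) e he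
  exact ⟨this.1, by omega⟩

theorem one_mem_Bl (U : UA G) (n : ℕ) : (1 : G) ∈ Bl U n := ⟨[], by simp, by simp, by simp⟩

theorem lipLen1 {U : UA G} {ℓ C : ℕ} (hC : LipC U ℓ C) (g x : G) (hx : x ∈ Sy U) :
    len U (g * x) ≤ len U g + C ∧ len U g ≤ len U (g * x) + C := by
  refine ⟨(hC g x hx).1, ?_⟩
  have := (hC (g * x) x⁻¹ (Sy_inv U hx)).1
  rwa [mul_inv_cancel_right] at this

theorem lipLen {U : UA G} {ℓ C : ℕ} (hC : LipC U ℓ C) (l : List G) : ∀ (g : G),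
    (∀ x ∈ l, x ∈ Sy U) → len U (g * l.prod) ≤ len U g + l.length * C ∧
      len U g ≤ len U (g * l.prod) + l.length * C := by
  induction l with
  | nil => intro g _; simp
  | cons x l ih =>
    intro g hl
    have h1 := lipLen1 hC g x (hl x (by simp))
    have h2 := ih (g * x) (fun y hy => hl y (by simp [hy]))
    rw [List.prod_cons, ← mul_assoc, List.length_cons, add_mul, one_mul]
    omega

theorem lipLenB {U : UA G} {ℓ C : ℕ} (hC : LipC U ℓ C) (g : G) {n : ℕ} {u : G} (hu : u ∈ Bl U n) :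
    len U (g * u) ≤ len U g + n * C ∧ len U g ≤ len U (g * u) + n * C := by
  obtain ⟨l, h1, h2, rfl⟩ := hu
  have := lipLen hC l g h2
  have h3 : l.length * C ≤ n * C := Nat.mul_le_mul_right _ h1
  omega

theorem lipT1 {U : UA G} {ℓ C n K : ℕ} {g x e : G} {E : Finset G} (hC : LipC U ℓ C)
    (hK : C ≤ K) (h : Com U ℓ (1 + n) K g E) (hx : x ∈ Sy U) (he : e ∈ E) :
    Ta U ℓ (g * x) e ≤ Ta U ℓ g e + C ∧ Ta U ℓ g e ≤ Ta U ℓ (g * x) e + C ∧
    Tb U ℓ (g * x) e ≤ Tb U ℓ g e + C ∧ Tb U ℓ g e ≤ Tb U ℓ (g * x) e + C := by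
  have hx1 : x ∈ Bl U (1 + n) := ⟨[x], by simp, by simpa using hx, by simp⟩
  have h1 := h 1 (one_mem_Bl U _) e he
  have h2 := h x hx1 e he
  rw [mul_one] at h1
  have h3 := (hC g x hx).2.1 e h1.1 h2.1 (by omega)
  have h4 := (hC (g * x) x⁻¹ (Sy_inv U hx)).2.1 e h2.1
    (by rw [mul_inv_cancel_right]; exact h1.1) (by omega)
  rw [mul_inv_cancel_right] at h4
  exact ⟨h3.1, h4.1, h4.2, h3.2⟩

theorem lipT {U : UA G} {ℓ C K : ℕ} {e : G} {E : Finset G} (hC : LipC U ℓ C) (hK : C ≤ K)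
    (he : e ∈ E) (l : List G) : ∀ (n : ℕ) (g : G), l.length ≤ n → (∀ x ∈ l, x ∈ Sy U) →
      Com U ℓ n K g E →
    Ta U ℓ (g * l.prod) e ≤ Ta U ℓ g e + l.length * C ∧
    Ta U ℓ g e ≤ Ta U ℓ (g * l.prod) e + l.length * C ∧
    Tb U ℓ (g * l.prod) e ≤ Tb U ℓ g e + l.length * C ∧
    Tb U ℓ g e ≤ Tb U ℓ (g * l.prod) e + l.length * C := by
  induction l with
  | nil => intro n g _ _ _; simp
  | cons x l ih =>
    intro n g hn hl h
    rw [List.length_cons] at hn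
    obtain ⟨n, rfl⟩ : ∃ n', n = 1 + n' := ⟨n - 1, by omega⟩
    have h1 := lipT1 hC hK h (hl x (by simp)) he
    have hx1 : x ∈ Bl U 1 := ⟨[x], by simp, by simpa using hl x (by simp), by simp⟩
    have h2 := ih n (g * x) (by omega) (fun y hy => hl y (by simp [hy])) (Com_shift h hx1)
    rw [List.prod_cons, ← mul_assoc, List.length_cons, add_mul, one_mul]
    omega

theorem lipTB {U : UA G} {ℓ C K n : ℕ} {g u e : G} {E : Finset G} (hC : LipC U ℓ C) (hK : C ≤ K)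
    (he : e ∈ E) (h : Com U ℓ n K g E) (hu : u ∈ Bl U n) :
    Ta U ℓ (g * u) e ≤ Ta U ℓ g e + n * C ∧
    Ta U ℓ g e ≤ Ta U ℓ (g * u) e + n * C ∧
    Tb U ℓ (g * u) e ≤ Tb U ℓ g e + n * C ∧
    Tb U ℓ g e ≤ Tb U ℓ (g * u) e + n * C := by
  obtain ⟨l, h1, h2, rfl⟩ := hu
  have := lipT hC hK he l n g h1 h2 h
  have h3 : l.length * C ≤ n * C := Nat.mul_le_mul_right _ h1
  omega

/-- total length of the stays -/
def sg (U : UA G) (ℓ : ℕ) (g : G) (E : Finset G) : ℕ := ∑ e ∈ E, (Tb U ℓ g e - Ta U ℓ g e)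

theorem sg_lip {U : UA G} {ℓ C K n : ℕ} {g u : G} {E : Finset G} (hC : LipC U ℓ C) (hK : C ≤ K)
    (h : Com U ℓ n K g E) (hu : u ∈ Bl U n) :
    sg U ℓ g E ≤ sg U ℓ (g * u) E + E.card * (2 * (n * C)) := by
  unfold sg
  rw [← smul_eq_mul (a := E.card), ← Finset.sum_const, ← Finset.sum_add_distrib]
  apply Finset.sum_le_sum
  intro e he
  have := lipTB hC hK he h hu
  omega

theorem sg_mm (U : UA G) {ℓ : ℕ} (hℓ : 0 < ℓ) (g : G) (E : Finset G) :
    sg U ℓ g E ≤ ℓ * (∑ e ∈ E, mm U ℓ g e) + E.card * ℓ := by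
  unfold sg
  rw [← smul_eq_mul (a := E.card), ← Finset.sum_const, Finset.mul_sum, ← Finset.sum_add_distrib]
  apply Finset.sum_le_sum
  intro e he
  have := Nat.lt_mul_div_succ (Tb U ℓ g e - Ta U ℓ g e) hℓ
  unfold mm
  rw [mul_add, mul_one] at this
  exact this.le

theorem mm_lip {U : UA G} {ℓ C K n : ℕ} {g u e : G} {E : Finset G} (hℓ : 0 < ℓ) (hC : LipC U ℓ C)
    (hK : C ≤ K) (he : e ∈ E) (h : Com U ℓ n K g E) (hu : u ∈ Bl U n) :
    mm U ℓ g e ≤ mm U ℓ (g * u) e + 2 * (n * C) ∧ mm U ℓ (g * u) e ≤ mm U ℓ g e + 2 * (n * C) := by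
  have h1 := lipTB hC hK he h hu
  have key : ∀ x y d : ℕ, x ≤ y + d → x / ℓ ≤ y / ℓ + d := by
    intro x y d hxy
    calc x / ℓ ≤ (y + d * ℓ) / ℓ := Nat.div_le_div_right (hxy.trans (by nlinarith))
      _ = y / ℓ + d := by rw [Nat.add_mul_div_right _ _ hℓ]
  unfold mm
  exact ⟨key _ _ _ (by omega), key _ _ _ (by omega)⟩

theorem TM_bd {U : UA G} {ℓ : ℕ} (hQ : LoopQ U ℓ) {g e : G} {t : ℕ} (h : t ∈ TM U ℓ g e) :
    Ta U ℓ g e ≤ t ∧ t ≤ Tb U ℓ g e := (hQ.tm_int g e ⟨t, h⟩ t).1 h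

theorem persist {U : UA G} {ℓ C K n p q p0 : ℕ} {g e : G} (hQ : LoopQ U ℓ) (hC : LipC U ℓ C)
    (hp : p0 ≤ p) (hpq : p + 2 * (n * C) + 2 * C + K ≤ q) (hpT : p ∈ TM U ℓ g e)
    (hqT : q ∈ TM U ℓ g e) (hs : ∀ u ∈ Bl U n, ¬ Big U (st U (nf U (g * u)) p0)) (l : List G) :
    l.length ≤ n → (∀ x ∈ l, x ∈ Sy U) →
      p + l.length * C ∈ TM U ℓ (g * l.prod) e ∧ q - l.length * C ∈ TM U ℓ (g * l.prod) e := by
  induction l using List.reverseRecOn with
  | nil => intro _ _; simpa using ⟨hpT, hqT⟩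
  | append_singleton l x ih =>
    intro hn hl
    have hln : l.length + 1 ≤ n := by simpa using hn
    obtain ⟨h1, h2⟩ := ih (by omega) (fun y hy => hl y (by simp [hy]))
    have h3 := (hC (g * l.prod) x (hl x (by simp))).2.2 e _ _ h1 h2
    have h4 : l.length * C + C ≤ n * C := by
      calc l.length * C + C = (l.length + 1) * C := by ring
        _ ≤ n * C := Nat.mul_le_mul_right _ hln
    have h5 : ¬ Big U (st U (nf U (g * l.prod * x)) (p + l.length * C)) := by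
      apply hQ.small_fwd _ p0 _ (by omega)
      have := hs (l ++ [x]).prod ⟨_, hn, hl, rfl⟩
      rwa [List.prod_append, List.prod_singleton, ← mul_assoc] at this
    have h6 := h3 (by omega) h5
    rw [List.prod_append, List.prod_singleton, ← mul_assoc, List.length_append,
      List.length_singleton, add_mul, one_mul]
    refine ⟨by rw [← add_assoc]; exact h6.1, ?_⟩
    have h7 := h6.2
    rwa [Nat.sub_sub] at h7

theorem persistB {U : UA G} {ℓ C K n p q p0 : ℕ} {g e : G} (hQ : LoopQ U ℓ) (hC : LipC U ℓ C)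
    (hp : p0 ≤ p) (hpq : p + 2 * (n * C) + 2 * C + K ≤ q) (hpT : p ∈ TM U ℓ g e)
    (hqT : q ∈ TM U ℓ g e) (hs : ∀ u ∈ Bl U n, ¬ Big U (st U (nf U (g * u)) p0)) {u : G}
    (hu : u ∈ Bl U n) : (TM U ℓ (g * u) e).Nonempty ∧ Ta U ℓ (g * u) e + K ≤ Tb U ℓ (g * u) e := by
  obtain ⟨l, h1, h2, rfl⟩ := hu
  obtain ⟨h3, h4⟩ := persist hQ hC hp hpq hpT hqT hs l h1 h2
  refine ⟨⟨_, h3⟩, ?_⟩
  have h5 := TM_bd hQ h3
  have h6 := TM_bd hQ h4
  have h7 : l.length * C ≤ n * C := Nat.mul_le_mul_right _ h1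
  omega

/-- the beginning of the first stay -/
theorem exists_a (U : UA G) (ℓ : ℕ) (g : G) (E : Finset G) :
    ∃ a : ℕ, a ≤ len U g ∧ (∀ e ∈ E, a ≤ Ta U ℓ g e) ∧ (a = len U g ∨ ∃ e ∈ E, a = Ta U ℓ g e) := by
  induction E using Finset.induction_on with
  | empty => exact ⟨len U g, le_rfl, by simp, Or.inl rfl⟩
  | insert e E he ih =>
    obtain ⟨a, h1, h2, h3⟩ := ih
    by_cases h : a ≤ Ta U ℓ g e
    · refine ⟨a, h1, ?_, ?_⟩
      · intro e' he'
        rcases Finset.mem_insert.1 he' with rfl | he'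
        · exact h
        · exact h2 _ he'
      · rcases h3 with h3 | ⟨e', he', h3⟩
        · exact Or.inl h3
        · exact Or.inr ⟨e', Finset.mem_insert_of_mem he', h3⟩
    · push Not at h
      refine ⟨Ta U ℓ g e, by omega, ?_, Or.inr ⟨e, Finset.mem_insert_self _ _, rfl⟩⟩
      intro e' he'
      rcases Finset.mem_insert.1 he' with rfl | he'
      · exact le_rfl
      · exact h.le.trans (h2 _ he')

/-- exponential growth beats polynomial growth -/
theorem growth (B M i : ℕ) : ∃ j : ℕ, B * (M * (j + 1)) ^ i < 2 ^ j := by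
  have h := tendsto_pow_const_div_const_pow_of_one_lt i (r := (2 : ℝ)) one_lt_two
  have h2 : Filter.Tendsto (fun j : ℕ => ((j + 1 : ℕ) : ℝ) ^ i / (2 : ℝ) ^ (j + 1)) Filter.atTop (nhds 0) :=
    h.comp (Filter.tendsto_add_atTop_nat 1)
  have h3 : (0 : ℝ) < 1 / (2 * (B * M ^ i + 1)) := by positivity
  obtain ⟨j, hj⟩ := ((h2.eventually (gt_mem_nhds h3))).exists
  refine ⟨j, ?_⟩
  have h4 : ((j + 1 : ℕ) : ℝ) ^ i < (2 : ℝ) ^ (j + 1) * (1 / (2 * (B * M ^ i + 1))) := by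
    rw [div_lt_iff₀ (by positivity)] at hj
    linarith
  have h5 : (B * M ^ i + 1 : ℝ) * ((j + 1 : ℕ) : ℝ) ^ i < 2 ^ j := by
    have h6 : (0 : ℝ) < B * M ^ i + 1 := by positivity
    calc (B * M ^ i + 1 : ℝ) * ((j + 1 : ℕ) : ℝ) ^ i
        < (B * M ^ i + 1 : ℝ) * ((2 : ℝ) ^ (j + 1) * (1 / (2 * (B * M ^ i + 1)))) := by
          exact mul_lt_mul_of_pos_left h4 h6
      _ = 2 ^ j := by field_simp; ring
  have h7 : ((B * (M * (j + 1)) ^ i : ℕ) : ℝ) < ((2 ^ j : ℕ) : ℝ) := by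
    push_cast
    calc (B : ℝ) * (M * (j + 1)) ^ i = (B * M ^ i : ℝ) * ((j + 1 : ℕ) : ℝ) ^ i := by
          push_cast; rw [mul_pow, mul_assoc]
      _ ≤ (B * M ^ i + 1 : ℝ) * ((j + 1 : ℕ) : ℝ) ^ i := by
          have : (0 : ℝ) ≤ ((j + 1 : ℕ) : ℝ) ^ i := by positivity
          nlinarith
      _ < 2 ^ j := h5
  exact_mod_cast h7

/-- the bad set: the time outside the long stays before the last big time is short -/
def Sk (U : UA G) (ℓ k : ℕ) (E : Finset G) (g : G) : Prop :=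
  ∃ t ≤ len U g, Big U (st U (nf U g) t) ∧ len U g ≤ ℓ * ∑ e ∈ E, mm U ℓ g e + t + k

/-- flow: some translate of the ball avoids the bad set -/
theorem avoid (U : UA G) (hF : Fol G) {ℓ C : ℕ} (hQ : LoopQ U ℓ) (hC : LipC U ℓ C) (i : ℕ)
    (hP : ∀ ρ K : ℕ, ∃ g0 E, E.card = i ∧ Com U ℓ ρ K g0 E) (k ρ K : ℕ) :
    ∃ g1 E, E.card = i ∧ Com U ℓ ρ K g1 E ∧ ∀ u ∈ Bl U ρ, ¬ Sk U ℓ k E (g1 * u) := by
  obtain ⟨c, hc⟩ := flow U
  have hBf := Bl_fin U ρ
  let B : Finset G := hBf.toFinset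
  have hBm : ∀ u, u ∈ B ↔ u ∈ Bl U ρ := fun u => hBf.mem_toFinset
  -- choice of j
  obtain ⟨j, hj⟩ := growth (2 * B.card * i.factorial * c ^ (k + 1)) (4 * C * c * (k + 1) + 1) i
  obtain ⟨Θ, hΘ, hfl⟩ := hc j k
  set R := c * (j + k + 1) with hR
  obtain ⟨F, hFne, hFc⟩ := hF (Finset.image₂ (· * ·) B Θ) 1
  let ρF : ℕ := F.sup (len U)
  have hρF : ∀ f ∈ F, f ∈ Bl U ρF := fun f hf => Bl_mono' U (Finset.le_sup hf) (Bl_len U f)
  obtain ⟨g0, E, hE, hCom⟩ := hP (ρF + (ρ + R)) (K + C)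
  -- the bad elements
  let D : Finset G := ((Finset.image₂ (· * ·) F B).image (g0 * ·)).filter (Sk U ℓ k E)
  have hD : ∀ g ∈ D, Com U ℓ R (K + C) g E ∧ Sk U ℓ k E g := by
    intro g hg
    obtain ⟨hg1, hg2⟩ := Finset.mem_filter.1 hg
    obtain ⟨x, hx, rfl⟩ := Finset.mem_image.1 hg1
    obtain ⟨f, hf, u, hu, rfl⟩ := Finset.mem_image₂.1 hx
    refine ⟨?_, hg2⟩
    have h1 : Com U ℓ (ρ + R) (K + C) (g0 * f) E := Com_shift hCom (hρF f hf)
    have h2 : Com U ℓ R (K + C) (g0 * f * u) E := Com_shift h1 ((hBm u).1 hu)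
    simpa only [mul_assoc] using h2
  have h1 := hfl E (mm U ℓ) (2 * (R * C)) D (by
      intro g hg
      obtain ⟨hg1, t, ht, htb, htl⟩ := hD g hg
      obtain ⟨l, hl1, hl2, w, hw, hgw, hwl, hwt⟩ := removal U ℓ hQ g E (fun e he => by
        have := (hg1 1 (one_mem_Bl U _) e he).1
        rwa [mul_one] at this)
      obtain ⟨h3, h4⟩ := hwt t ht htb
      refine ⟨l, hl1, hl2, w.take t, w.drop t, by rwa [List.take_append_drop], ?_, ?_, ?_⟩
      · rw [h4]; exact htb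
      · rw [List.length_drop]
        omega
      · rwa [List.take_append_drop]) (by
      intro g hg θ hθ e he
      exact mm_lip hQ.pos hC (by omega) he (hD g hg).1 (hΘ hθ))
  rw [hE] at h1
  -- the size of the thickening
  have h2 : (Finset.image₂ (· * ·) D Θ).card ≤ 2 * F.card := by
    have h3 : (Finset.image₂ (· * ·) D Θ) ⊆
        (Finset.image₂ (· * ·) F (Finset.image₂ (· * ·) B Θ)).image (g0 * ·) := by
      intro y hy
      obtain ⟨g, hg, θ, hθ, rfl⟩ := Finset.mem_image₂.1 hy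
      obtain ⟨x, hx, rfl⟩ := Finset.mem_image.1 (Finset.mem_filter.1 hg).1
      obtain ⟨f, hf, u, hu, rfl⟩ := Finset.mem_image₂.1 hx
      refine Finset.mem_image.2 ⟨f * (u * θ), Finset.mem_image₂.2 ⟨f, hf, u * θ,
        Finset.mem_image₂.2 ⟨u, hu, θ, hθ, rfl⟩, rfl⟩, ?_⟩
      simp only [mul_assoc]
    calc (Finset.image₂ (· * ·) D Θ).card
        ≤ ((Finset.image₂ (· * ·) F (Finset.image₂ (· * ·) B Θ)).image (g0 * ·)).card :=
          Finset.card_le_card h3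
      _ ≤ (Finset.image₂ (· * ·) F (Finset.image₂ (· * ·) B Θ)).card := Finset.card_image_le
      _ ≤ 2 * F.card := by simpa using hFc
  have h3 : D.card * B.card < F.card := by
    by_contra hcon
    push Not at hcon
    have hFpos : 0 < F.card := hFne.card_pos
    have hjb : 2 * B.card * i.factorial * c ^ (k + 1) * (2 * (2 * (R * C)) + 1) ^ i < 2 ^ j := by
      refine lt_of_le_of_lt ?_ hj
      apply Nat.mul_le_mul_left
      apply Nat.pow_le_pow_left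
      rw [hR]
      calc 2 * (2 * (c * (j + k + 1) * C)) + 1 = 4 * C * c * (j + k + 1) + 1 := by ring
        _ ≤ 4 * C * c * ((k + 1) * (j + 1)) + 1 := by
          apply Nat.add_le_add_right
          apply Nat.mul_le_mul_left
          nlinarith
        _ ≤ (4 * C * c * (k + 1) + 1) * (j + 1) := by nlinarith
    have h4 : 2 ^ j * F.card ≤
        (2 * B.card * i.factorial * c ^ (k + 1) * (2 * (2 * (R * C)) + 1) ^ i) * F.card := by
      calc 2 ^ j * F.card ≤ 2 ^ j * (D.card * B.card) := Nat.mul_le_mul_left _ hcon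
        _ = (2 ^ j * D.card) * B.card := by ring
        _ ≤ (i.factorial * (2 * (2 * (R * C)) + 1) ^ i * c ^ (k + 1) *
          (Finset.image₂ (· * ·) D Θ).card) * B.card := Nat.mul_le_mul_right _ h1
        _ ≤ (i.factorial * (2 * (2 * (R * C)) + 1) ^ i * c ^ (k + 1) * (2 * F.card)) * B.card :=
          Nat.mul_le_mul_right _ (Nat.mul_le_mul_left _ h2)
        _ = _ := by ring
    have h5 := Nat.mul_lt_mul_of_pos_right hjb hFpos
    omega
  -- some f avoids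
  obtain ⟨f, hf, hf2⟩ : ∃ f ∈ F, ∀ u ∈ B, g0 * (f * u) ∉ D := by
    by_contra hcon
    push Not at hcon
    have h4 : F ⊆ Finset.image₂ (fun d u => g0⁻¹ * d * u⁻¹) D B := by
      intro f hf
      obtain ⟨u, hu, hd⟩ := hcon f hf
      exact Finset.mem_image₂.2 ⟨_, hd, u, hu, by group⟩
    have h5 := (Finset.card_le_card h4).trans (Finset.card_image₂_le _ _ _)
    omega
  refine ⟨g0 * f, E, hE, ?_, ?_⟩
  · exact Com_mono (by omega) (by omega) (Com_shift hCom (hρF f hf))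
  · intro u hu hS
    apply hf2 u ((hBm u).2 hu)
    refine Finset.mem_filter.2 ⟨Finset.mem_image.2 ⟨f * u, Finset.mem_image₂.2 ⟨f, hf, u,
      (hBm u).2 hu, rfl⟩, rfl⟩, ?_⟩
    simpa only [mul_assoc] using hS

/-- the step -/
theorem step (U : UA G) (hF : Fol G) (hb : Big U U.s0) {ℓ C : ℕ} (hQ : LoopQ U ℓ)
    (hC : LipC U ℓ C) (i : ℕ) (hP : ∀ ρ K : ℕ, ∃ g0 E, E.card = i ∧ Com U ℓ ρ K g0 E) (ρ K : ℕ) :
    ∃ g0 E, E.card = i + 1 ∧ Com U ℓ ρ K g0 E := by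
  set s := Nat.card U.S with hs
  set Cρ := ρ * C with hCρ
  set K2 := 2 * Cρ + 2 * C + K with hK2
  set V := Cρ + i * (2 * Cρ) + i * ℓ with hV
  set κ := V + Cρ + s * (K2 + 1) + i + 1 with hκ
  obtain ⟨g1, E, hE, hCom, hSk⟩ := avoid U hF hQ hC i hP (2 * κ) ρ (K + C)
  have hne : ∀ e ∈ E, (TM U ℓ g1 e).Nonempty := by
    intro e he
    have := (hCom 1 (one_mem_Bl U _) e he).1
    rwa [mul_one] at this
  obtain ⟨a, ha1, ha2, ha3⟩ := exists_a U ℓ g1 E
  -- it suffices to find a good window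
  suffices hw : ∃ p0 q0, q0 ≤ len U g1 ∧ (∀ u ∈ Bl U ρ, ¬ Big U (st U (nf U (g1 * u)) p0)) ∧
      s * (K2 + 1) < ((Finset.Icc p0 q0).filter (fun t => ∀ e ∈ E, t ∉ TM U ℓ g1 e)).card by
    obtain ⟨p0, q0, h1, h2, h3⟩ := hw
    obtain ⟨e, he, p, q, h4, h5, h6, h7, h8⟩ := new_stay U ℓ hQ g1 E p0 q0 K2 (by
      have := h2 1 (one_mem_Bl U _)
      rwa [mul_one] at this) h1 h3
    refine ⟨g1, insert e E, by rw [Finset.card_insert_of_notMem he, hE], ?_⟩
    intro u hu e' he'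
    rcases Finset.mem_insert.1 he' with rfl | he'
    · exact persistB hQ hC h4 (by omega) h7 h8 h2 hu
    · have := hCom u hu e' he'
      exact ⟨this.1, by omega⟩
  by_cases hA : 2 * (a + sg U ℓ g1 E) + 2 * κ ≤ 2 * len U g1
  · -- case A
    have hEne : ∃ e ∈ E, a = Ta U ℓ g1 e := by
      rcases ha3 with h | h
      · exfalso; omega
      · exact h
    obtain ⟨e, he, hae⟩ := hEne
    refine ⟨a + Cρ, len U g1, le_rfl, ?_, ?_⟩
    · intro u hu
      have h1 := lipTB hC (by omega) he hCom hu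
      have h2 := (hCom u hu e he).1
      have h3 : Ta U ℓ (g1 * u) e ∈ TM U ℓ (g1 * u) e :=
        (hQ.tm_int _ e h2 _).2 ⟨le_rfl, by
          obtain ⟨t, ht⟩ := h2
          have := TM_bd hQ ht
          omega⟩
      exact hQ.small_fwd _ _ _ (by omega) h3.2.1
    · have h1 : Finset.Icc (a + Cρ) (len U g1) ⊆
          ((Finset.Icc (a + Cρ) (len U g1)).filter (fun t => ∀ e ∈ E, t ∉ TM U ℓ g1 e)) ∪
            E.biUnion (fun e => Finset.Icc (Ta U ℓ g1 e) (Tb U ℓ g1 e)) := by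
        intro t ht
        by_cases h : ∀ e ∈ E, t ∉ TM U ℓ g1 e
        · exact Finset.mem_union_left _ (Finset.mem_filter.2 ⟨ht, h⟩)
        · push Not at h
          obtain ⟨e', he', h⟩ := h
          apply Finset.mem_union_right
          exact Finset.mem_biUnion.2 ⟨e', he', Finset.mem_Icc.2 (TM_bd hQ h)⟩
      have h2 := (Finset.card_le_card h1).trans (Finset.card_union_le _ _)
      have h3 : (E.biUnion (fun e => Finset.Icc (Ta U ℓ g1 e) (Tb U ℓ g1 e))).card ≤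
          sg U ℓ g1 E + i := by
        refine Finset.card_biUnion_le.trans ?_
        unfold sg
        rw [← hE, Finset.card_eq_sum_ones, ← Finset.sum_add_distrib]
        apply Finset.sum_le_sum
        intro e' he'
        rw [Nat.card_Icc]
        omega
      rw [Nat.card_Icc] at h2
      omega
  · -- case B
    push Not at hA
    have h0 : ∀ u ∈ Bl U ρ, ∀ t ≤ len U (g1 * u), Big U (st U (nf U (g1 * u)) t) →
        t + κ < a + V := by
      intro u hu t ht hbt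
      have h1 : ¬ (len U (g1 * u) ≤ ℓ * ∑ e ∈ E, mm U ℓ (g1 * u) e + t + 2 * κ) := by
        intro h
        exact hSk u hu ⟨t, ht, hbt, h⟩
      push Not at h1
      have h2 := sg_mm U hQ.pos (g1 * u) E
      have h3 := sg_lip hC (by omega) hCom hu
      have h4 := lipLenB hC g1 hu
      rw [hE] at h2 h3
      rw [← hCρ] at h3 h4
      omega
    have h1 : κ < a + V := by
      have := h0 1 (one_mem_Bl U _) 0 (Nat.zero_le _) (by
        have : st U (nf U (g1 * 1)) 0 = U.s0 := rfl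
        rw [this]; exact hb)
      omega
    refine ⟨a + V - κ, a - 1, by omega, ?_, ?_⟩
    · intro u hu hbig
      have h2 := lipLenB hC g1 hu
      have := h0 u hu (a + V - κ) (by omega) hbig
      omega
    · rw [Finset.filter_true_of_mem, Nat.card_Icc]
      · omega
      · intro t ht e he htm
        have h2 := TM_bd hQ htm
        have h3 := ha2 e he
        have h4 := (Finset.mem_Icc.1 ht).2
        omega

theorem stage' (U : UA G) (hF : Fol G) (hb : Big U U.s0) : ∃ ℓ, LoopQ U ℓ ∧ ∀ i : ℕ,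
    (∀ ρ K : ℕ, ∃ g0 E, E.card = i ∧ Com U ℓ ρ K g0 E) →
    (∀ ρ K : ℕ, ∃ g0 E, E.card = i + 1 ∧ Com U ℓ ρ K g0 E) := by
  obtain ⟨ℓ0, h0, hlip⟩ := lip U
  have hQ : LoopQ U (ℓ0 * (Nat.card U.S).factorial) :=
    loopQ U _ (Nat.mul_pos h0 (Nat.factorial_pos _))
      (fun k h1 h2 => (Nat.dvd_factorial h1 h2).mul_left _)
  obtain ⟨C, hC⟩ := hlip _ (Dvd.intro _ rfl) hQ
  exact ⟨_, hQ, fun i hP ρ K => step U hF hb hQ hC i hP ρ K⟩

end

end Pool.Agent.TH109.Q
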