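import Mathlib
import Pool.Agent.TH109.Q.Stage
import Pool.Agent.TH109.M.CG
import Pool.Agent.TH109.M.MBof

set_option autoImplicit false

open scoped Classical

namespace Pool.Agent.TH109.Q

open Pool.Agent.Helper943.LM (UA wpow)
open Pool.Agent.TH109.M

noncomputable section

variable {G : Type} [Group G]

theorem star_of_fol' (U : UA G) (hF : Fol G) : Star U := by
  by_contra hS
  have hb : Big U U.s0 := by
    by_contra hb
    exact hS (star_of_small U hb)
  obtain ⟨ℓ, hQ, hst⟩ := stage' U hF hb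
  have key : ∀ i : ℕ, ∀ ρ K : ℕ, ∃ g0 E, E.card = i ∧ Com U ℓ ρ K g0 E := by
    intro i
    induction i with
    | zero =>
      intro ρ K
      exact ⟨1, ∅, rfl, fun u _ e he => by simp at he⟩
    | succ i ih => exact hst i ih
  obtain ⟨g0, E, hE, hC⟩ := key (Nat.card U.S + 1) 0 0
  have h1 : (1 : G) ∈ Bl U 0 := ⟨[], by simp, by simp, by simp⟩
  have h2 := vals_card U ℓ hQ (g0 * 1) E (fun e he => (hC 1 h1 e he).1)
  omega

/-- every amenable (Følner) automatic group is virtually abelian -/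
theorem va_of_fol (U : UA G) (hF : Fol G) :
    ∃ H : Subgroup G, H.FiniteIndex ∧ ∀ x ∈ H, ∀ y ∈ H, x * y = y * x :=
  star_va' U (star_of_fol' U hF) (lenF U)

/-- from the fellow traveller form of the statement -/
theorem ua_of_aut (h : ∃ (A : Type) (_ : Fintype A) (μ : A → G) (L : Language A),
        (∃ (σ : Type) (_ : Fintype σ) (M : DFA A σ), M.accepts = L) ∧
        (∀ g : G, ∃ w ∈ L, (w.map μ).prod = g) ∧
        (∃ S : Finset G, ∀ u ∈ L, ∀ v ∈ L, ∀ x : G, (x = 1 ∨ ∃ a, μ a = x) →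
          (u.map μ).prod * x = (v.map μ).prod →
          ∀ t : ℕ, (((u.take t).map μ).prod)⁻¹ * ((v.take t).map μ).prod ∈ S)) :
    Nonempty (UA G) := by
  obtain ⟨A, _, μ, L, ⟨σ, _, M, rfl⟩, hs, S, hK⟩ := h
  apply Pool.Agent.Helper943.LM.uaOfAut
  refine ⟨A, inferInstance, μ, σ, inferInstance, M, hs, fun x => ?_⟩
  refine Pool.Agent.Helper943.LM.autoLemma μ M _ _ (S.finite_toSet) ?_
  intro u v hu hv he t
  have h1 : ((x.map μ).getD 1 = 1 ∨ ∃ a, μ a = (x.map μ).getD 1) := by
    cases x with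
    | none => exact Or.inl rfl
    | some i => exact Or.inr ⟨i, rfl⟩
  exact hK u hu v hv _ h1 he t

end

end Pool.Agent.TH109.Q
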